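import Pool.Agent.Lib.helper22.SeqSpace

namespace Pool.Agent.H.MP_514f39_an

open Finset Filter Topology Pool.Agent.Lib.helper22 SeqSpace

theorem steinitz (B : Finset ℕ) : ∀ a : ℕ → ℝ, ∃ π : Equiv.Perm ℕ, (∀ i, π i ∈ B ↔ i ∈ B) ∧
    ∀ M, (∀ i ∈ B, |a i| ≤ M) → |∑ i ∈ B, a i| ≤ M →
      ∀ t, |∑ i ∈ B.filter (· < t), a (π i)| ≤ M := by
  induction B using Finset.induction_on_max with
  | empty => exact fun a => ⟨1, by simp, fun M _ h t => by simpa using h⟩
  | insert m B hm ih =>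
  intro a
  have nm : m ∉ B := fun h => lt_irrefl _ (hm m h)
  obtain ⟨j, hj, hs⟩ : ∃ j ∈ insert m B, ∀ M, |a j| ≤ M → |∑ i ∈ insert m B, a i| ≤ M →
      |∑ i ∈ insert m B, a i - a j| ≤ M := by
    rcases le_total 0 (∑ i ∈ insert m B, a i) with h | h
    · obtain ⟨j, hj, h2⟩ := exists_le_of_sum_le (insert_nonempty m B) (f := fun _ => (0 : ℝ))
        (g := a) (by simpa using h)
      exact ⟨j, hj, fun M h3 h4 => by rw [abs_le] at *; constructor <;> linarith [h3.2, h4.2]⟩
    · obtain ⟨j, hj, h2⟩ := exists_le_of_sum_le (insert_nonempty m B) (g := fun _ => (0 : ℝ))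
        (f := a) (by simpa using h)
      exact ⟨j, hj, fun M h3 h4 => by rw [abs_le] at *; constructor <;> linarith [h3.1, h4.1]⟩
  have sw : ∀ i, Equiv.swap m j i ∈ insert m B ↔ i ∈ insert m B := fun i => by
    rw [Equiv.swap_apply_def]
    split_ifs with h1 h2
    · simp [h1, hj]
    · simp [h2, hj]
    · rfl
  obtain ⟨π, h1, h2⟩ := ih fun i => a (Equiv.swap m j i)
  let π' : Equiv.Perm ℕ := π.trans (Equiv.swap (π m) m)
  have p1 : ∀ i ∈ B, π' i = π i := fun i hi => Equiv.swap_apply_of_ne_of_ne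
    (fun e => nm (π.injective e ▸ hi)) fun e => nm (e ▸ (h1 i).2 hi)
  have p2 : π' m = m := Equiv.swap_apply_left _ _
  have p3 : ∀ i, π' i ∈ insert m B ↔ i ∈ insert m B := fun i => by
    refine ⟨fun h => ?_, fun h => ?_⟩
    · rcases mem_insert.1 h with h | h
      · exact mem_insert.2 (Or.inl (π'.injective (h.trans p2.symm)))
      · have := p1 (π.symm (π' i)) ((h1 _).1 (by simpa using h))
        rw [π.apply_symm_apply] at this
        exact mem_insert_of_mem (π'.injective this ▸ (h1 _).1 (by simpa using h))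
    · rcases mem_insert.1 h with rfl | h
      · rw [p2]; exact h
      · rw [p1 i h]; exact mem_insert_of_mem ((h1 i).2 h)
  have p4 : ∀ i, (π'.trans (Equiv.swap m j)) i ∈ insert m B ↔ i ∈ insert m B := fun i =>
    (sw _).trans (p3 i)
  refine ⟨π'.trans (Equiv.swap m j), p4, fun M b1 b2 t => ?_⟩
  by_cases ht : m < t
  · rw [filter_true_of_mem fun i hi => by
      rcases mem_insert.1 hi with rfl | hi
      · exact ht
      · exact (hm i hi).trans ht,
      sum_equiv (π'.trans (Equiv.swap m j)) (fun i => (p4 i).symm) fun _ _ => rfl]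
    exact b2
  · rw [filter_insert, if_neg ht, sum_congr rfl (g := fun i => a (Equiv.swap m j (π i)))
      fun i hi => by rw [Equiv.trans_apply, p1 i (mem_filter.1 hi).1]]
    refine h2 M (fun i hi => b1 _ ((sw i).2 (mem_insert_of_mem hi))) ?_ t
    have e := sum_equiv (f := fun i => a (Equiv.swap m j i)) (g := a) (Equiv.swap m j)
      (fun i => (sw i).symm) fun _ _ => rfl
    rw [sum_insert nm, Equiv.swap_apply_left] at e
    refine le_trans (le_of_eq ?_) (hs M (b1 j hj) b2)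
    rw [← e]; congr 1; ring

def B (n : ℕ) : Finset ℕ := Ico (n ^ 2) ((n + 1) ^ 2)

theorem mem_B (n i : ℕ) : i ∈ B n ↔ Nat.sqrt i = n := by
  rw [B, mem_Ico, eq_comm, Nat.eq_sqrt']

theorem card_B (n : ℕ) : (B n).card = 2 * n + 1 := by
  rw [B, Nat.card_Ico]; exact Nat.sub_eq_of_eq_add (by ring)

noncomputable def TT : Tests ℕ where
  G := {w | (∃ i, w = Finsupp.single i 1) ∨ ∃ n, w = ∑ i ∈ B n, Finsupp.single i 1}
  bd := by
    rintro w (⟨i, rfl⟩ | ⟨n, rfl⟩) j
    · rw [Finsupp.single_apply]; split_ifs <;> simp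
    · rw [Finsupp.finsetSum_apply]
      simp only [Finsupp.single_apply, sum_ite_eq']
      split_ifs <;> simp
  single_mem i := Or.inl ⟨i, rfl⟩

theorem norm_le (v : X TT) (M : ℝ) :
    ‖v‖ ≤ M ↔ (∀ i, |f TT i v| ≤ M) ∧ ∀ n, |∑ i ∈ B n, f TT i v| ≤ M := by
  constructor
  · intro h
    refine ⟨fun i => (f_le TT i v).trans h, fun n => ?_⟩
    simpa using (norm_iff TT v M ((norm_nonneg _).trans h)).1 h _ (Or.inr ⟨n, rfl⟩)
  · rintro ⟨h1, h2⟩
    refine (norm_iff TT v M ((abs_nonneg _).trans (h1 0))).2 ?_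
    rintro w (⟨i, rfl⟩ | ⟨n, rfl⟩)
    · simpa using h1 i
    · simpa using h2 n

theorem small (v : X TT) (ε : ℝ) (hε : 0 < ε) :
    ∃ N, ∀ n, N ≤ n → (∀ i ∈ B n, |f TT i v| ≤ ε) ∧ |∑ i ∈ B n, f TT i v| ≤ ε := by
  obtain ⟨u, hu, h⟩ := Metric.mem_closure_iff.1 (dense_x TT v) ε hε
  obtain ⟨N, hN⟩ : ∃ N, ∀ i, N ≤ i → f TT i u = 0 := by
    refine Submodule.span_induction (p := fun u _ => ∃ N, ∀ i, N ≤ i → f TT i u = 0) ?_
      ⟨0, by simp⟩ ?_ ?_ hu
    · rintro _ ⟨n, rfl⟩
      exact ⟨n + 1, fun i hi => by rw [f_x, if_neg (by omega)]⟩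
    · rintro a b - - ⟨N, h1⟩ ⟨M, h2⟩
      exact ⟨max N M, fun i hi => by
        rw [map_add, h1 i (le_of_max_le_left hi), h2 i (le_of_max_le_right hi), add_zero]⟩
    · rintro c a - ⟨N, h1⟩
      exact ⟨N, fun i hi => by rw [map_smul, h1 i hi, smul_zero]⟩
  rw [dist_eq_norm] at h
  obtain ⟨h1, h2⟩ := (norm_le _ _).1 h.le
  have e : ∀ n, N ≤ n → ∀ i ∈ B n, f TT i (v - u) = f TT i v := fun n hn i hi => by
    rw [map_sub, hN i (hn.trans (((mem_B n i).1 hi).ge.trans (Nat.sqrt_le_self i))), sub_zero]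
  exact ⟨N, fun n hn => ⟨fun i hi => e n hn i hi ▸ h1 i, sum_congr rfl (e n hn) ▸ h2 n⟩⟩

theorem coef (σ : Equiv.Perm ℕ) (α : ℕ → ℝ) (t k : ℕ) :
    f TT (σ k) (∑ i ∈ range t, α i • x TT (σ i)) = if k < t then α k else 0 := by
  simp [map_sum, f_x]

theorem expand (v : X TT) : ∃ σ : Equiv.Perm ℕ,
    Tendsto (fun n => ∑ i ∈ range n, f TT (σ i) v • x TT (σ i)) atTop (𝓝 v) := by
  choose π h1 h2 using fun n => steinitz (B n) fun i => f TT i v
  have s1 : ∀ i, Nat.sqrt (π (Nat.sqrt i) i) = Nat.sqrt i := fun i =>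
    (mem_B _ _).1 ((h1 _ _).2 ((mem_B _ _).2 rfl))
  have s2 : ∀ i, Nat.sqrt ((π (Nat.sqrt i)).symm i) = Nat.sqrt i := fun i =>
    (mem_B _ _).1 ((h1 _ _).1 (by rw [Equiv.apply_symm_apply]; exact (mem_B _ _).2 rfl))
  let σ : Equiv.Perm ℕ := ⟨fun i => π (Nat.sqrt i) i, fun i => (π (Nat.sqrt i)).symm i,
    fun i => by simp only [s1, Equiv.symm_apply_apply],
    fun i => by simp only [s2, Equiv.apply_symm_apply]⟩
  have sB : ∀ n i, i ∈ B n ↔ σ i ∈ B n := fun n i => by rw [mem_B, mem_B]; exact s1 i ▸ Iff.rfl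
  refine ⟨σ, Metric.tendsto_atTop.2 fun ε hε => ?_⟩
  obtain ⟨N, hN⟩ := small v (ε / 3) (by positivity)
  refine ⟨N ^ 2, fun t ht => lt_of_le_of_lt (b := 2 * (ε / 3)) ?_ (by linarith)⟩
  rw [dist_comm, dist_eq_norm]
  refine (norm_le _ _).2 ⟨fun i => ?_, fun n => ?_⟩
  · obtain ⟨k, rfl⟩ := σ.surjective i
    rw [map_sub, coef]
    split_ifs with h
    · simp; positivity
    · have := (hN (Nat.sqrt k) (Nat.le_sqrt'.2 (by omega))).1 _ ((sB _ k).1 ((mem_B _ _).2 rfl))
      rw [sub_zero]; linarith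
  · rw [← sum_equiv σ (sB n) fun _ _ => rfl]
    simp only [map_sub, coef, sum_sub_distrib]
    rw [← sum_filter]
    by_cases hn : N ≤ n
    · have a := h2 n _ (hN n hn).1 (hN n hn).2 t
      have b := (hN n hn).2
      rw [← sum_equiv σ (sB n) fun _ _ => rfl] at b
      rw [sum_congr rfl (g := fun i => f TT (σ i) v) fun i hi => by
        rw [← (mem_B _ _).1 (mem_filter.1 hi).1]; rfl] at a
      exact (abs_sub _ _).trans (by linarith)
    · rw [filter_true_of_mem fun i hi => by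
        have := (mem_Ico.1 hi).2
        have := Nat.pow_le_pow_left (show n + 1 ≤ N by omega) 2
        omega]
      simp; positivity

theorem uniq (v : X TT) (σ : Equiv.Perm ℕ) (α : ℕ → ℝ)
    (h : Tendsto (fun n => ∑ i ∈ range n, α i • x TT (σ i)) atTop (𝓝 v)) (k : ℕ) :
    α k = f TT (σ k) v := by
  refine tendsto_nhds_unique (tendsto_const_nhds.congr' ?_) (((f TT (σ k)).continuous.tendsto v).comp h)
  filter_upwards [eventually_gt_atTop k] with n hn
  rw [Function.comp, coef, if_pos hn]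

theorem exists_cut (F : Finset ℕ) (σ : Equiv.Perm ℕ) (k : ℕ) (hk : k ≤ F.card) :
    ∃ n, (F.filter fun v => σ v < n).card = k := by
  have ex : ∃ n, k ≤ (F.filter fun v => σ v < n).card := ⟨F.sup σ + 1, by
    rwa [filter_true_of_mem (p := fun v => σ v < F.sup σ + 1)
      fun m hm => Nat.lt_succ_of_le (le_sup (f := σ) hm)]⟩
  refine ⟨Nat.find ex, le_antisymm ?_ (Nat.find_spec ex)⟩
  rcases h0 : Nat.find ex with _ | p
  · simp
  have h1 := Nat.find_min ex (m := p) (by omega)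
  have h2 : (F.filter fun v => σ v < p + 1) ⊆ insert (σ.symm p) (F.filter fun v => σ v < p) :=
    fun m hm => by
      simp only [mem_filter, mem_insert, Equiv.eq_symm_apply] at *
      by_cases hp : σ m = p
      · exact Or.inl hp
      · exact Or.inr ⟨hm.1, by omega⟩
  have := (card_le_card h2).trans (card_insert_le _ _)
  omega

theorem no_order (σ : Equiv.Perm ℕ) : ¬ ∀ v : X TT,
    Tendsto (fun n : ℕ => ∑ k ∈ range n, f TT (σ k) v • x TT (σ k)) atTop (𝓝 v) := fun h => by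
  obtain ⟨K, hK⟩ := banach_steinhaus
    (g := fun n : ℕ => ∑ k ∈ range n, (f TT (σ k)).smulRight (x TT (σ k))) fun v => by
      obtain ⟨C, hC⟩ := (h v).norm.bddAbove_range
      exact ⟨C, fun n => by
        rw [_root_.sum_apply]; exact hC ⟨n, rfl⟩⟩
  obtain ⟨s, hs⟩ := exists_nat_gt K
  obtain ⟨n, hn⟩ := exists_cut (B s) σ.symm s (by rw [card_B]; omega)
  have hc := card_filter_add_card_filter_not (s := B s) fun v => σ.symm v < n
  rw [card_B, hn] at hc
  let v : X TT := ∑ i ∈ B s, (if σ.symm i < n then (1 : ℝ) else -1) • x TT i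
  have h1 : ‖v‖ ≤ 1 := (norm_le _ _).2 ⟨fun i => ?_, fun m => ?_⟩
  · have h3 := ContinuousLinearMap.le_of_opNorm_le_of_le _ (hK n) h1
    rw [_root_.sum_apply] at h3
    have h4 := ((norm_le _ _).1 h3).2 s
    rw [sum_congr rfl (g := fun i => if σ.symm i < n then (1 : ℝ) else 0) fun i hi => by
      obtain ⟨k, rfl⟩ := σ.surjective i
      refine (coef σ (fun k => f TT (σ k) v) n k).trans ?_
      simp only [v, f_sum, if_pos hi, Equiv.symm_apply_apply]
      split_ifs <;> rfl, sum_boole, hn, Nat.abs_cast] at h4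
    linarith
  · rw [f_sum]; split_ifs <;> simp
  · simp only [v, f_sum]
    by_cases e : m = s
    · subst e
      rw [sum_congr rfl fun i hi => if_pos hi, sum_ite, sum_const, sum_const, hn,
        show (filter (fun v => ¬σ.symm v < n) (B m)).card = m + 1 by omega]
      simp
    · rw [sum_eq_zero fun i hi => if_neg fun h => e (((mem_B _ _).1 hi).symm.trans ((mem_B _ _).1 h))]
      simp

theorem sep : TopologicalSpace.SeparableSpace (X TT) :=
  TopologicalSpace.isSeparable_univ_iff.1 ((dense_x TT).isSeparable_iff.1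
    (Set.countable_range _).isSeparable.span |> fun h => by
      exact TopologicalSpace.isSeparable_univ_iff.2 h)

theorem minimal (m : ℕ) :
    x TT m ∉ (Submodule.span ℝ (x TT '' {n | n ≠ m})).topologicalClosure := fun h => by
  have h1 : Submodule.span ℝ (x TT '' {n | n ≠ m}) ≤ LinearMap.ker (f TT m).toLinearMap := by
    rw [Submodule.span_le]
    rintro _ ⟨n, hn, rfl⟩
    exact (f_x TT m n).trans (if_neg (Ne.symm hn))
  have h3 : f TT m (x TT m) = 0 :=
    Submodule.topologicalClosure_minimal _ h1 (ContinuousLinearMap.isClosed_ker _) h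
  simp [f_x] at h3

end Pool.Agent.H.MP_514f39_an
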